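import Pool.Agent.Q170.WD.St

/-!
# Hilbert functions of the zero ideal and of a principal ideal
-/

set_option autoImplicit false

namespace Pool.Agent.Q192.WD

open MvPolynomial Pool.Agent.Q170.WD

lemma sum_multichoose (N t : ℕ) :
    ∑ j ∈ Finset.range (t + 1), Nat.multichoose N j = Nat.multichoose (N + 1) t := by
  induction t with
  | zero => simp
  | succ t ih =>
    rw [Finset.sum_range_succ, ih, Nat.multichoose_succ_succ, add_comm]

lemma card_exponents (N t : ℕ) :
    Nat.card ({n : Fin N →₀ ℕ | (n.sum fun _ e => e) ≤ t} : Set (Fin N →₀ ℕ)) =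
      (t + N).choose N := by
  classical
  have hset : ({n : Fin N →₀ ℕ | (n.sum fun _ e => e) ≤ t} : Set (Fin N →₀ ℕ)) =
      (((Finset.range (t + 1)).biUnion fun j =>
        (Finset.univ : Finset (Fin N)).finsuppAntidiag j : Finset (Fin N →₀ ℕ)) :
          Set (Fin N →₀ ℕ)) := by
    ext n
    rw [Finset.mem_coe, Finset.mem_biUnion]
    simp only [Finset.mem_range, Finset.mem_finsuppAntidiag, Finset.subset_univ, and_true,
      Set.mem_ofPred_eq]
    rw [Finsupp.sum_fintype _ _ (fun _ => rfl)]
    constructor
    · intro h
      exact ⟨_, Nat.lt_succ_of_le h, rfl⟩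
    · rintro ⟨j, hj, hs⟩
      have h2 : ∑ i, n i = j := hs
      rw [h2]
      omega
  rw [hset]
  have h1 : Nat.card (((Finset.range (t + 1)).biUnion fun j =>
        (Finset.univ : Finset (Fin N)).finsuppAntidiag j : Finset (Fin N →₀ ℕ)) :
          Set (Fin N →₀ ℕ)) = ((Finset.range (t + 1)).biUnion fun j =>
        (Finset.univ : Finset (Fin N)).finsuppAntidiag j).card :=
    Nat.card_eq_card_toFinset _ |>.trans (by simp)
  rw [h1, Finset.card_biUnion]
  · simp only [Finset.card_finsuppAntidiag_nat_eq_multichoose, Finset.card_univ,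
      Fintype.card_fin]
    rw [sum_multichoose, Nat.multichoose_eq]
    have : N + 1 + t - 1 = t + N := by omega
    rw [this]
    exact Nat.choose_symm_add
  · intro i _ j _ hij
    change Disjoint _ _
    rw [Finset.disjoint_left]
    intro n hn hn'
    rw [Finset.mem_finsuppAntidiag] at hn hn'
    exact hij (hn.1.symm.trans hn'.1)

lemma finrank_rtd (L : Type) [Field L] (N t : ℕ) :
    Module.finrank L (restrictTotalDegree (Fin N) L t) = (t + N).choose N := by
  rw [← card_exponents N t]
  exact Module.finrank_eq_nat_card_basis (basisRestrictSupport L _)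

theorem t_TOP : S_TOP := by
  constructor
  · intro L _ N t
    unfold hilb
    rw [← finrank_rtd L N t]
    have hinj : Function.Injective
        (Ideal.Quotient.mkₐ L (⊥ : Ideal (MvPolynomial (Fin N) L))).toLinearMap := by
      rw [← LinearMap.ker_eq_bot, LinearMap.ker_eq_bot']
      intro f hf
      have h1 : Ideal.Quotient.mk (⊥ : Ideal (MvPolynomial (Fin N) L)) f = 0 := hf
      rw [Ideal.Quotient.eq_zero_iff_mem] at h1
      exact h1
    exact (Submodule.equivMapOfInjective _ hinj _).finrank_eq.symm
  · intro L _ N t F hF hFt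
    unfold hilb
    set I : Ideal (MvPolynomial (Fin N) L) := Ideal.span {F} with hI
    set q := (Ideal.Quotient.mkₐ L I).toLinearMap with hq
    have hq0 : ∀ f, q f = 0 ↔ f ∈ I := fun f => Ideal.Quotient.eq_zero_iff_mem
    have h1 := LinearMap.finrank_range_add_finrank_ker
      (q.domRestrict (restrictTotalDegree (Fin N) L t))
    rw [LinearMap.range_domRestrict, finrank_rtd] at h1
    rw [← h1]
    congr 1
    rw [← finrank_rtd L N (t - F.totalDegree)]
    have hmem : ∀ f : restrictTotalDegree (Fin N) L (t - F.totalDegree),
        F * (f : MvPolynomial (Fin N) L) ∈ restrictTotalDegree (Fin N) L t := by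
      intro f
      rw [mem_restrictTotalDegree]
      have h2 := (mem_restrictTotalDegree _ _ _).mp f.2
      have h3 := totalDegree_mul F (f : MvPolynomial (Fin N) L)
      omega
    let φ : restrictTotalDegree (Fin N) L (t - F.totalDegree) →ₗ[L]
        restrictTotalDegree (Fin N) L t :=
      LinearMap.codRestrict _ ((LinearMap.mulLeft L F).domRestrict _) hmem
    have hφ : ∀ f, ((φ f : restrictTotalDegree (Fin N) L t) : MvPolynomial (Fin N) L) = F * f :=
      fun f => rfl
    have hφi : Function.Injective φ := by
      intro f g hfg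
      have h2 : F * (f : MvPolynomial (Fin N) L) = F * g := congrArg Subtype.val hfg
      exact Subtype.ext (mul_left_cancel₀ hF h2)
    have hr : LinearMap.range φ = LinearMap.ker
        (q.domRestrict (restrictTotalDegree (Fin N) L t)) := by
      ext x
      rw [LinearMap.mem_range, LinearMap.mem_ker, LinearMap.domRestrict_apply, hq0]
      constructor
      · rintro ⟨f, rfl⟩
        rw [hφ, hI]
        exact Ideal.mul_mem_right _ _ (Ideal.mem_span_singleton_self F)
      · intro hx
        rw [hI, Ideal.mem_span_singleton] at hx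
        obtain ⟨g, hg⟩ := hx
        have hgd : g ∈ restrictTotalDegree (Fin N) L (t - F.totalDegree) := by
          rw [mem_restrictTotalDegree]
          by_cases hg0 : g = 0
          · subst hg0
            simp
          · have h2 := (mem_restrictTotalDegree _ _ _).mp x.2
            rw [hg, totalDegree_mul_of_isDomain hF hg0] at h2
            omega
        refine ⟨⟨g, hgd⟩, ?_⟩
        apply Subtype.ext
        rw [hφ, hg]
    rw [← hr, LinearMap.finrank_range_of_inj hφi]

end Pool.Agent.Q192.WD
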